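import Pool.Agent.Run7.h302.RM.Op
import Pool.Agent.Run7.h288.RMStm
set_option autoImplicit false

/-! The union bound, and the random matrix lemma. -/

namespace Run7.h302.RM

open Finset

open Classical in
/-- the number of points with a property -/
noncomputable def cnt {Ω : Type*} [Fintype Ω] (p : Ω → Prop) : ℝ :=
  ((univ.filter p).card : ℝ)

lemma cnt_nonneg {Ω : Type*} [Fintype Ω] (p : Ω → Prop) : 0 ≤ cnt p := Nat.cast_nonneg _

lemma cnt_mono {Ω : Type*} [Fintype Ω] {p q : Ω → Prop} (h : ∀ ω, p ω → q ω) : cnt p ≤ cnt q := by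
  classical
  refine Nat.cast_le.mpr (Finset.card_le_card fun ω hω => ?_)
  exact Finset.mem_filter.mpr ⟨Finset.mem_univ _, h ω (Finset.mem_filter.mp hω).2⟩

/-- union bound -/
lemma cnt_exists {Ω I : Type*} [Fintype Ω] (s : Finset I) (p : I → Ω → Prop) (b : ℝ)
    (h : ∀ i ∈ s, cnt (p i) ≤ b) :
    cnt (fun ω => ∃ i ∈ s, p i ω) ≤ s.card * b := by
  classical
  have h1 : (univ.filter fun ω => ∃ i ∈ s, p i ω) ⊆ s.biUnion fun i => univ.filter (p i) := by
    intro ω hω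
    obtain ⟨i, hi, hp⟩ := (Finset.mem_filter.mp hω).2
    exact Finset.mem_biUnion.mpr ⟨i, hi, by simp [hp]⟩
  have h2 := (Finset.card_le_card h1).trans Finset.card_biUnion_le
  have h3 : cnt (fun ω => ∃ i ∈ s, p i ω) ≤ ((∑ i ∈ s, (univ.filter (p i)).card : ℕ) : ℝ) := by
    unfold cnt
    refine Nat.cast_le.mpr (le_trans (le_of_eq ?_) h2)
    congr
  refine h3.trans ?_
  rw [Nat.cast_sum, ← nsmul_eq_mul, ← Finset.sum_const]
  refine Finset.sum_le_sum fun i hi => ?_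
  have := h i hi
  unfold cnt at this
  convert this

lemma cnt_lower {n : ℕ} (a : Fin n → ℝ) (ha : ∑ k, a k ^ 2 = 1) (R : Finset (Fin n)) (s : ℝ) :
    cnt (fun ω : Fin n → Fin n → Bool => ∑ j ∈ R, X a (ω j) ^ 2 ≤ s) ≤
      (2 ^ n) ^ n * (Real.exp (s / 3) * (5 / 6) ^ R.card) := by
  have := lower_dev a ha R s
  unfold cnt
  convert this

lemma cnt_upper {n : ℕ} (u v : Fin n → ℝ) (hu : ∑ k, u k ^ 2 ≤ 1) (hv : ∑ j, v j ^ 2 ≤ 1)
    (t : ℝ) (ht : 0 ≤ t) :
    cnt (fun ω : Fin n → Fin n → Bool => t ≤ ∑ j, v j * X u (ω j)) ≤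
      (2 ^ n) ^ n * Real.exp (-(t ^ 2) / 2) := by
  have := upper_dev u v hu hv t ht
  unfold cnt
  convert this

/-- the real matrix of a matrix of truth values -/
noncomputable def mat {n : ℕ} (ω : Fin n → Fin n → Bool) : Fin n → Fin n → ℝ :=
  fun j k => sg (ω j k)

lemma B_mat {n : ℕ} (ω : Fin n → Fin n → Bool) (u v : Fin n → ℝ) :
    B (mat ω) u v = ∑ j, v j * X u (ω j) := rfl

lemma row_mat {n : ℕ} (ω : Fin n → Fin n → Bool) (u : Fin n → ℝ) (j : Fin n) :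
    ∑ k, mat ω j k * u k = X u (ω j) := rfl

/-- the norm is large -/
def BadU (n : ℕ) (ω : Fin n → Fin n → Bool) : Prop :=
  ∃ p ∈ net n 4 univ ×ˢ net n 4 univ, 5 * Real.sqrt n ≤ ∑ j, p.2 j * X p.1 (ω j)

lemma num_one (n : ℕ) : Real.exp (-((5 * Real.sqrt n) ^ 2) / 2) ≤ (1 / 16384) ^ n := by
  have h4 : (16384 : ℝ) ≤ Real.exp (25 / 2) := by
    have h5 : Real.exp (12 : ℝ) ≤ Real.exp (25 / 2) := Real.exp_le_exp.mpr (by norm_num)
    have h6 : Real.exp (12 : ℝ) = Real.exp 1 ^ 12 := by rw [← Real.exp_nat_mul]; norm_num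
    have h7 : (2.7 : ℝ) ≤ Real.exp 1 := by have := Real.exp_one_gt_d9; linarith
    have h8 : (2.7 : ℝ) ^ 12 ≤ Real.exp 1 ^ 12 := pow_le_pow_left₀ (by norm_num) h7 12
    norm_num at h8
    linarith
  have h5 : -((5 * Real.sqrt n) ^ 2) / 2 = n * (-(25 / 2)) := by
    rw [mul_pow, Real.sq_sqrt (Nat.cast_nonneg n)]
    ring
  rw [h5, Real.exp_nat_mul, Real.exp_neg]
  refine pow_le_pow_left₀ (inv_nonneg.mpr (Real.exp_pos _).le) ?_ n
  rw [one_div]
  exact inv_anti₀ (by norm_num) h4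

lemma num_two {n : ℕ} (hn : 1 ≤ n) (T x : ℝ) (hT : 0 ≤ T) (hx : 0 ≤ x) (hx1 : x ≤ 64 ^ n) :
    x * x * (T * (1 / 16384) ^ n) ≤ T / 4 := by
  have h1 : x * x ≤ 64 ^ n * 64 ^ n := mul_le_mul hx1 hx1 hx (by positivity)
  have h2 : (0 : ℝ) ≤ T * (1 / 16384) ^ n := by positivity
  have h3 : (64 : ℝ) ^ n * 64 ^ n * (T * (1 / 16384) ^ n) = T * (1 / 4) ^ n := by
    rw [← mul_pow, mul_left_comm, ← mul_pow]
    norm_num
  have h4 : ((1 : ℝ) / 4) ^ n ≤ (1 / 4) ^ 1 :=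
    pow_le_pow_of_le_one (by norm_num) (by norm_num) hn
  have h5 := mul_le_mul_of_nonneg_right h1 h2
  have h6 := mul_le_mul_of_nonneg_left h4 hT
  rw [h3] at h5
  linarith

lemma badU_card {n : ℕ} (hn : 1 ≤ n) : cnt (BadU n) ≤ (2 ^ n) ^ n / 4 := by
  have h1 := cnt_exists (Ω := Fin n → Fin n → Bool) (net n 4 univ ×ˢ net n 4 univ)
    (fun p ω => 5 * Real.sqrt n ≤ ∑ j, p.2 j * X p.1 (ω j))
    ((2 ^ n) ^ n * (1 / 16384) ^ n) (fun p hp => by
      obtain ⟨h1, h2⟩ := Finset.mem_product.mp hp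
      refine (cnt_upper p.1 p.2 (net_norm h1) (net_norm h2) _ (by positivity)).trans ?_
      exact mul_le_mul_of_nonneg_left (num_one n) (by positivity))
  have h3 := net_card n 4 (univ : Finset (Fin n))
  rw [Finset.card_univ, Fintype.card_fin] at h3
  have h4 : (2 : ℝ) ^ (4 + 2) = 64 := by norm_num
  rw [h4] at h3
  rw [Finset.card_product, Nat.cast_mul] at h1
  exact h1.trans (num_two hn _ _ (by positivity) (Nat.cast_nonneg _) h3)

/-- the small sets -/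
def small (n k : ℕ) : Finset (Finset (Fin n)) := univ.filter fun A => A.card ≤ k

lemma small_card (n k : ℕ) : ((small n k).card : ℝ) ≤ 100 ^ k * (101 / 100) ^ n := by
  have h1 : ((small n k).card : ℝ) ≤ ∑ A ∈ small n k, (100 : ℝ) ^ k * (1 / 100) ^ A.card := by
    rw [Finset.card_eq_sum_ones, Nat.cast_sum]
    refine Finset.sum_le_sum fun A hA => ?_
    have h2 : A.card ≤ k := (Finset.mem_filter.mp hA).2
    rw [one_div, inv_pow, ← div_eq_mul_inv, Nat.cast_one, one_le_div (by positivity)]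
    exact pow_le_pow_right₀ (by norm_num) h2
  have h2 : ∑ A ∈ small n k, (100 : ℝ) ^ k * (1 / 100) ^ A.card ≤
      ∑ A : Finset (Fin n), (100 : ℝ) ^ k * (1 / 100) ^ A.card :=
    Finset.sum_le_univ_sum_of_nonneg fun A => by positivity
  have h3 := Finset.sum_pow_mul_eq_add_pow (1 / 100 : ℝ) 1 (univ : Finset (Fin n))
  rw [Finset.powerset_univ] at h3
  simp only [one_pow, mul_one, Finset.card_univ, Fintype.card_fin] at h3
  rw [← Finset.mul_sum (s := (univ : Finset (Finset (Fin n)))), h3] at h2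
  have h4 : (1 / 100 + 1 : ℝ) = 101 / 100 := by norm_num
  rw [h4] at h2
  exact h1.trans h2

/-- the matrix is small on a sparse vector -/
def BadL (n k : ℕ) (ω : Fin n → Fin n → Bool) : Prop :=
  ∃ A ∈ small n k, ∃ A' ∈ small n k, ∃ u ∈ net n 64 A,
    ∑ j ∈ univ \ A', X u (ω j) ^ 2 < n / 4 * ∑ i, u i ^ 2

lemma X_smul {n : ℕ} (c : ℝ) (u : Fin n → ℝ) (η : Fin n → Bool) :
    X (fun k => c * u k) η = c * X u η := by
  rw [X, X, Finset.mul_sum]
  exact Finset.sum_congr rfl fun k _ => by ring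

lemma badL_vec {n : ℕ} (u : Fin n → ℝ) (R : Finset (Fin n)) :
    cnt (fun ω : Fin n → Fin n → Bool => ∑ j ∈ R, X u (ω j) ^ 2 < n / 4 * ∑ i, u i ^ 2) ≤
      (2 ^ n) ^ n * (Real.exp (n / 12) * (5 / 6) ^ R.card) := by
  have hs0 : 0 ≤ ∑ k, u k ^ 2 := Finset.sum_nonneg fun _ _ => sq_nonneg _
  rcases hs0.eq_or_lt with hs | hs
  · have h1 : cnt (fun ω : Fin n → Fin n → Bool => ∑ j ∈ R, X u (ω j) ^ 2 <
        n / 4 * ∑ i, u i ^ 2) ≤ cnt (fun _ : Fin n → Fin n → Bool => False) := by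
      refine cnt_mono fun ω hω => ?_
      rw [← hs, mul_zero] at hω
      exact absurd hω (not_lt.mpr (Finset.sum_nonneg fun _ _ => sq_nonneg _))
    have h2 : cnt (fun _ : Fin n → Fin n → Bool => False) = 0 := by simp [cnt]
    rw [h2] at h1
    exact h1.trans (by positivity)
  set s := ∑ k, u k ^ 2 with hsdef
  have ha : ∑ k, ((Real.sqrt s)⁻¹ * u k) ^ 2 = 1 := by
    simp only [mul_pow, ← Finset.mul_sum, inv_pow, Real.sq_sqrt hs.le]
    rw [← hsdef]
    exact inv_mul_cancel₀ hs.ne'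
  have h1 := cnt_lower (fun k => (Real.sqrt s)⁻¹ * u k) ha R ((n : ℝ) / 4)
  have h2 : (n : ℝ) / 4 / 3 = n / 12 := by ring
  rw [h2] at h1
  refine le_trans (cnt_mono fun ω h3 => ?_) h1
  have h4 : ∑ j ∈ R, X (fun k => (Real.sqrt s)⁻¹ * u k) (ω j) ^ 2 =
      s⁻¹ * ∑ j ∈ R, X u (ω j) ^ 2 := by
    rw [Finset.mul_sum]
    refine Finset.sum_congr rfl fun j _ => ?_
    rw [X_smul, mul_pow, inv_pow, Real.sq_sqrt hs.le]
  rw [h4, inv_mul_le_iff₀ hs]
  linarith

lemma num_exp (n : ℕ) : Real.exp ((n : ℝ) / 12) ≤ (1087 / 1000) ^ n := by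
  have h1 : Real.exp ((1 : ℝ) / 12) ≤ 1087 / 1000 := by
    have h2 : Real.exp ((1 : ℝ) / 12) ^ 12 = Real.exp 1 := by
      rw [← Real.exp_nat_mul]
      norm_num
    have h3 := Real.exp_one_lt_d9
    by_contra h
    push Not at h
    have h4 : ((1087 : ℝ) / 1000) ^ 12 ≤ Real.exp ((1 : ℝ) / 12) ^ 12 :=
      pow_le_pow_left₀ (by norm_num) h.le 12
    rw [h2] at h4
    norm_num at h4
    linarith
  have h2 : (n : ℝ) / 12 = n * (1 / 12) := by ring
  rw [h2, Real.exp_nat_mul]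
  exact pow_le_pow_left₀ (Real.exp_pos _).le h1 n

lemma num_big : (100 * 100 * 2 ^ 66 * (6 / 5) * (37 / 40) ^ 1000 : ℝ) ≤ 1 := by
  have h1 : ((37 : ℝ) / 40) ^ 100 ≤ 1 / 2400 := by norm_num
  have h2 : ((37 : ℝ) / 40) ^ 1000 ≤ (1 / 2400) ^ 10 := by
    have : (1000 : ℕ) = 100 * 10 := by norm_num
    rw [this, pow_mul]
    exact pow_le_pow_left₀ (by positivity) h1 10
  have h3 : (100 * 100 * 2 ^ 66 * (6 / 5) : ℝ) * (1 / 2400) ^ 10 ≤ 1 := by norm_num
  have h4 : (0 : ℝ) ≤ 100 * 100 * 2 ^ 66 * (6 / 5) := by positivity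
  exact (mul_le_mul_of_nonneg_left h2 h4).trans h3

lemma numeric (n : ℕ) (hn : 36 ≤ n) (k : ℕ) (hk : k = n / 2000) :
    (100 ^ k * (101 / 100) ^ n) * ((100 ^ k * (101 / 100) ^ n) *
      ((2 ^ 66) ^ k * (Real.exp (n / 12) * (5 / 6) ^ (n - k)))) ≤
      (1 / 4 : ℝ) := by
  have hk2 : 2000 * k ≤ n := hk ▸ Nat.mul_div_le n 2000
  have he := num_exp n
  have h56 : ((5 : ℝ) / 6) ^ (n - k) = (5 / 6) ^ n * (6 / 5) ^ k := by
    have : n = (n - k) + k := by omega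
    conv_rhs => rw [this, pow_add, mul_assoc, ← mul_pow]
    norm_num
  obtain ⟨m, hm⟩ : ∃ m, n = 1000 * k + m := ⟨n - 1000 * k, by omega⟩
  have hm18 : 18 ≤ m := by omega
  generalize hD : (2 : ℝ) ^ 66 = D at *
  have hD0 : 0 < D := by rw [← hD]; positivity
  have hbig := num_big
  rw [hD] at hbig
  generalize hE : ((37 : ℝ) / 40) ^ 1000 = E at *
  have hE0 : 0 < E := by rw [← hE]; positivity
  have h37 : (37 / 40 : ℝ) ^ n = E ^ k * (37 / 40) ^ m := by
    rw [hm, pow_add, pow_mul, hE]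
  calc (100 ^ k * (101 / 100) ^ n) * ((100 ^ k * (101 / 100) ^ n) *
      (D ^ k * (Real.exp (n / 12) * (5 / 6) ^ (n - k))))
      ≤ (100 ^ k * (101 / 100) ^ n) * ((100 ^ k * (101 / 100) ^ n) *
      (D ^ k * ((1087 / 1000) ^ n * (5 / 6) ^ (n - k)))) := by gcongr
    _ = (100 * 100 * D * (6 / 5)) ^ k *
        (101 / 100 * (101 / 100) * (1087 / 1000) * (5 / 6) : ℝ) ^ n := by
        rw [h56, mul_pow, mul_pow, mul_pow, mul_pow, mul_pow, mul_pow]
        ring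
    _ ≤ (100 * 100 * D * (6 / 5)) ^ k * (37 / 40 : ℝ) ^ n := by
        refine mul_le_mul_of_nonneg_left ?_ (by positivity)
        exact pow_le_pow_left₀ (by norm_num) (by norm_num) n
    _ = (100 * 100 * D * (6 / 5) * E) ^ k * (37 / 40 : ℝ) ^ m := by
        rw [h37, mul_pow _ E k]
        ring
    _ ≤ 1 ^ k * (37 / 40 : ℝ) ^ 18 := by
        refine mul_le_mul ?_ ?_ (by positivity) (by positivity)
        · exact pow_le_pow_left₀ (by positivity) hbig k
        · exact pow_le_pow_of_le_one (by norm_num) (by norm_num) hm18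
    _ ≤ 1 / 4 := by
        rw [one_pow, one_mul]
        norm_num

lemma badL_card (n : ℕ) (hn : 36 ≤ n) :
    cnt (BadL n (n / 2000)) ≤ (2 ^ n) ^ n / 4 := by
  generalize hk : n / 2000 = k
  have hnum := numeric n hn k hk.symm
  have hkn : k ≤ n := hk ▸ Nat.div_le_self n 2000
  have hT0 : (0 : ℝ) ≤ (2 ^ n) ^ n := by positivity
  have hD1 : (1 : ℝ) ≤ 2 ^ 66 := one_le_pow₀ (by norm_num)
  have hnet : ∀ A : Finset (Fin n), ((net n 64 A).card : ℝ) ≤ (2 ^ 66) ^ A.card := fun A =>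
    net_card n 64 A
  generalize (2 : ℝ) ^ 66 = D at hnum hnet hD1
  have hD0 : 0 ≤ D := zero_le_one.trans hD1
  generalize hT : ((2 : ℝ) ^ n) ^ n = T at *
  generalize hb : T * (Real.exp (n / 12) * (5 / 6) ^ (n - k)) = b
  have hb0 : 0 ≤ b := by rw [← hb]; positivity
  have h0 : ∀ A' ∈ small n k, ∀ u : Fin n → ℝ,
      cnt (fun ω : Fin n → Fin n → Bool => ∑ j ∈ univ \ A', X u (ω j) ^ 2 <
        n / 4 * ∑ i, u i ^ 2) ≤ b := by
    intro A' hA' u
    refine (badL_vec u _).trans ?_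
    rw [hT, ← hb]
    refine mul_le_mul_of_nonneg_left (mul_le_mul_of_nonneg_left ?_ (Real.exp_pos _).le) hT0
    refine pow_le_pow_of_le_one (by norm_num) (by norm_num) ?_
    rw [Finset.card_sdiff_of_subset (Finset.subset_univ _), Finset.card_univ, Fintype.card_fin]
    have := (Finset.mem_filter.mp hA').2
    omega
  have h1 : ∀ A ∈ small n k, ∀ A' ∈ small n k,
      cnt (fun ω : Fin n → Fin n → Bool => ∃ u ∈ net n 64 A,
        ∑ j ∈ univ \ A', X u (ω j) ^ 2 < n / 4 * ∑ i, u i ^ 2) ≤ D ^ k * b := by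
    intro A hA A' hA'
    refine (cnt_exists (net n 64 A) (fun u (ω : Fin n → Fin n → Bool) =>
      ∑ j ∈ univ \ A', X u (ω j) ^ 2 < n / 4 * ∑ i, u i ^ 2) b fun u _ => h0 A' hA' u).trans ?_
    refine mul_le_mul_of_nonneg_right ((hnet A).trans ?_) hb0
    exact pow_le_pow_right₀ hD1 (Finset.mem_filter.mp hA).2
  have h2 : ∀ A ∈ small n k,
      cnt (fun ω : Fin n → Fin n → Bool => ∃ A' ∈ small n k, ∃ u ∈ net n 64 A,
        ∑ j ∈ univ \ A', X u (ω j) ^ 2 < n / 4 * ∑ i, u i ^ 2) ≤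
        (small n k).card * (D ^ k * b) := fun A hA =>
    cnt_exists (small n k) (fun A' (ω : Fin n → Fin n → Bool) => ∃ u ∈ net n 64 A,
        ∑ j ∈ univ \ A', X u (ω j) ^ 2 < n / 4 * ∑ i, u i ^ 2) _ (h1 A hA)
  have h3 : cnt (BadL n k) ≤ (small n k).card * ((small n k).card * (D ^ k * b)) :=
    cnt_exists (small n k) (fun A (ω : Fin n → Fin n → Bool) => ∃ A' ∈ small n k,
      ∃ u ∈ net n 64 A, ∑ j ∈ univ \ A', X u (ω j) ^ 2 < n / 4 * ∑ i, u i ^ 2) _ h2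
  have h4 := small_card n k
  generalize hs : ((small n k).card : ℝ) = s at h3 h4
  have hs0 : 0 ≤ s := by rw [← hs]; exact Nat.cast_nonneg _
  have hDb : 0 ≤ D ^ k * b := by positivity
  have h5 : s * (s * (D ^ k * b)) ≤ (100 ^ k * (101 / 100) ^ n) * ((100 ^ k * (101 / 100) ^ n) *
      (D ^ k * b)) :=
    mul_le_mul h4 (mul_le_mul_of_nonneg_right h4 hDb) (mul_nonneg hs0 hDb) (by positivity)
  have h6 := mul_le_mul_of_nonneg_left hnum hT0
  have h7 : (100 ^ k * (101 / 100) ^ n) * ((100 ^ k * (101 / 100) ^ n) * (D ^ k * b)) =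
      T * ((100 ^ k * (101 / 100) ^ n) * ((100 ^ k * (101 / 100) ^ n) *
      (D ^ k * (Real.exp (n / 12) * (5 / 6) ^ (n - k))))) := by
    rw [← hb]
    ring
  rw [← h7] at h6
  linarith

/-- transposition -/
def tr {n : ℕ} (ω : Fin n → Fin n → Bool) : Fin n → Fin n → Bool := fun j k => ω k j

lemma tr_cnt {n : ℕ} (p : (Fin n → Fin n → Bool) → Prop) :
    cnt (fun ω => p (tr ω)) = cnt p := by
  classical
  unfold cnt
  congr 1
  refine Finset.card_bij (fun ω _ => tr ω) (fun ω hω => ?_) (fun ω _ ω' _ h => ?_)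
    fun ω hω => ⟨tr ω, ?_, rfl⟩
  · exact Finset.mem_filter.mpr ⟨Finset.mem_univ _, (Finset.mem_filter.mp hω).2⟩
  · funext j k
    exact congrFun (congrFun h k) j
  · exact Finset.mem_filter.mpr ⟨Finset.mem_univ _, (Finset.mem_filter.mp hω).2⟩

lemma cnt_or {Ω : Type*} [Fintype Ω] (p q : Ω → Prop) :
    cnt (fun ω => p ω ∨ q ω) ≤ cnt p + cnt q := by
  classical
  have h1 : (univ.filter fun ω => p ω ∨ q ω) = univ.filter p ∪ univ.filter q := by
    ext ω
    simp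
  have h2 := Finset.card_union_le (univ.filter p) (univ.filter q)
  rw [← h1] at h2
  unfold cnt
  rw [← Nat.cast_add]
  refine Nat.cast_le.mpr (le_trans (le_of_eq ?_) (h2.trans (le_of_eq ?_)))
  · congr
  · congr

lemma cnt_true (n : ℕ) : cnt (fun _ : Fin n → Fin n → Bool => True) = (2 ^ n) ^ n := by
  simp [cnt]

theorem exists_matrix (n : ℕ) (hn : 36 ≤ n) : ∃ ω : Fin n → Fin n → Bool,
    ¬ BadU n ω ∧ ¬ BadL n (n / 2000) ω ∧ ¬ BadL n (n / 2000) (tr ω) := by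
  by_contra hcon
  push Not at hcon
  have h1 := badU_card (n := n) (by omega)
  have h2 := badL_card n hn
  have h3 := tr_cnt (n := n) (BadL n (n / 2000))
  have h4 : cnt (fun _ : Fin n → Fin n → Bool => True) ≤
      cnt (fun ω => BadU n ω ∨ (BadL n (n / 2000) ω ∨ BadL n (n / 2000) (tr ω))) := by
    refine cnt_mono fun ω _ => ?_
    by_cases ha : BadU n ω
    · exact Or.inl ha
    · by_cases hb : BadL n (n / 2000) ω
      · exact Or.inr (Or.inl hb)
      · exact Or.inr (Or.inr (hcon ω ha hb))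
  have h5 := cnt_or (BadU n) (fun ω => BadL n (n / 2000) ω ∨ BadL n (n / 2000) (tr ω))
  have h6 := cnt_or (BadL n (n / 2000)) (fun ω => BadL n (n / 2000) (tr ω))
  rw [cnt_true] at h4
  have h8 : (0 : ℝ) < (2 ^ n) ^ n := by positivity
  linarith

lemma good_of {n : ℕ} (hn : 1 ≤ n) (ω : Fin n → Fin n → Bool)
    (hop : ∀ u : Fin n → ℝ, ∑ j, (∑ k, mat ω j k * u k) ^ 2 ≤ 100 * n * ∑ k, u k ^ 2)
    (hL : ¬ BadL n (n / 2000) ω) :
    Run7.h288.GoodMatrix (1 / 2000) (1 / 6) 10 n fun j k => mat ω j k / Real.sqrt n := by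
  have hnR : (0 : ℝ) < n := by exact_mod_cast hn
  have hdiv : ∀ (u : Fin n → ℝ) (j : Fin n), (∑ k, mat ω j k / Real.sqrt n * u k) ^ 2 =
      (n : ℝ)⁻¹ * (∑ k, mat ω j k * u k) ^ 2 := by
    intro u j
    have : ∑ k, mat ω j k / Real.sqrt n * u k = (Real.sqrt n)⁻¹ * ∑ k, mat ω j k * u k := by
      rw [Finset.mul_sum]
      exact Finset.sum_congr rfl fun k _ => by ring
    rw [this, mul_pow, inv_pow, Real.sq_sqrt hnR.le]
  have hcard : ∀ A : Finset (Fin n), (A.card : ℝ) ≤ 1 / 2000 * n → A ∈ small n (n / 2000) := by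
    intro A hA
    refine Finset.mem_filter.mpr ⟨Finset.mem_univ _, ?_⟩
    rw [Nat.le_div_iff_mul_le (by norm_num)]
    have : (A.card : ℝ) * 2000 ≤ n := by linarith
    exact_mod_cast this
  refine ⟨fun u => ?_, fun A A' hA hA' u hu => ?_⟩
  · simp only [hdiv, ← Finset.mul_sum]
    rw [inv_mul_le_iff₀ hnR]
    have := hop u
    linarith
  · simp only [hdiv, ← Finset.mul_sum]
    have h1 := sparse_lower (mat ω) A (univ \ A') hop (fun u' hu' => by
      by_contra h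
      push Not at h
      exact hL ⟨A, hcard A hA, A', hcard A' hA', u', hu', h⟩) u hu
    rw [le_inv_mul_iff₀ hnR]
    linarith

theorem rm : Run7.h288.S_RM := by
  refine ⟨1 / 2000, 1 / 6, 10, 36, by norm_num, by norm_num, by norm_num, fun n hn => ?_⟩
  have hn1 : 1 ≤ n := by omega
  obtain ⟨ω, hU, hL, hT⟩ := exists_matrix n hn
  have hb := bilin_bound (mat ω) (5 * Real.sqrt n) (fun u hu v hv => by
    rw [B_mat]
    by_contra h
    push Not at h
    exact hU ⟨(u, v), Finset.mem_product.mpr ⟨hu, hv⟩, h.le⟩)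
  have hsq : (2 * (5 * Real.sqrt n)) ^ 2 = 100 * (n : ℝ) := by
    rw [mul_pow, mul_pow, Real.sq_sqrt (Nat.cast_nonneg n)]
    ring
  have h1 := op_bound (mat ω) _ hb
  have h2 := op_bound (mat (tr ω)) (2 * (5 * Real.sqrt n)) (fun u hu v hv => by
    have h3 : B (mat (tr ω)) u v = B (mat ω) v u := B_swap (mat ω) u v
    rw [h3]
    exact hb v hv u hu)
  rw [hsq] at h1 h2
  refine ⟨fun j k => mat ω j k / Real.sqrt n, good_of hn1 ω h1 hL, ?_⟩
  exact good_of hn1 (tr ω) h2 hT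

end Run7.h302.RM
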