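import Pool.Agent.Run7.h302.RM.Signs
set_option autoImplicit false

/-! Nets of the unit balls of coordinate subspaces, made of lattice points. -/

namespace Run7.h302.RM

open Finset

/-- a lattice point with signs -/
noncomputable def netVec (n M d : ℕ) (p : Fin n → ℕ × Bool) : Fin n → ℝ :=
  fun k => sg (p k).2 * (p k).1 / (M * Real.sqrt d)

lemma geom_le (N : ℕ) : ∑ w ∈ range (N + 1), ((1 : ℝ) / 2) ^ w ≤ 2 := by
  have := geom_sum_eq (show (1 / 2 : ℝ) ≠ 1 by norm_num) (N + 1)
  rw [this]
  have h : (0 : ℝ) ≤ (1 / 2) ^ (N + 1) := by positivity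
  rw [div_le_iff_of_neg (by norm_num)]
  linarith

open Classical in
/-- the index set of the net -/
noncomputable def idx (n M : ℕ) (A : Finset (Fin n)) : Finset (Fin n → ℕ × Bool) :=
  (Fintype.piFinset fun k : Fin n =>
    if k ∈ A then (range (M * A.card + 1)) ×ˢ univ else {(0, true)}).filter
      fun p => ∑ k, (p k).1 ≤ M * A.card

lemma idx_card (n M : ℕ) (A : Finset (Fin n)) :
    ((idx n M A).card : ℝ) ≤ (2 ^ (M + 2)) ^ A.card := by
  classical
  have h1 : ((idx n M A).card : ℝ) ≤ ∑ p ∈ idx n M A,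
      (2 : ℝ) ^ (M * A.card) * ∏ k, (1 / 2 : ℝ) ^ (p k).1 := by
    rw [Finset.card_eq_sum_ones, Nat.cast_sum]
    refine Finset.sum_le_sum fun p hp => ?_
    have hp2 := (Finset.mem_filter.mp hp).2
    rw [Finset.prod_pow_eq_pow_sum, one_div, inv_pow, ← div_eq_mul_inv, Nat.cast_one,
      one_le_div (by positivity)]
    exact pow_le_pow_right₀ (by norm_num) hp2
  have h2 : ∑ p ∈ idx n M A, (2 : ℝ) ^ (M * A.card) * ∏ k, (1 / 2 : ℝ) ^ (p k).1 ≤
      ∑ p ∈ Fintype.piFinset fun k : Fin n =>
        if k ∈ A then (range (M * A.card + 1)) ×ˢ (univ : Finset Bool) else {(0, true)},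
        (2 : ℝ) ^ (M * A.card) * ∏ k, (1 / 2 : ℝ) ^ (p k).1 :=
    Finset.sum_le_sum_of_subset_of_nonneg (Finset.filter_subset _ _) fun p _ _ => by positivity
  rw [← Finset.mul_sum (s := Fintype.piFinset fun k : Fin n =>
        if k ∈ A then (range (M * A.card + 1)) ×ˢ (univ : Finset Bool) else {(0, true)})] at h2
  have h3 := Finset.prod_univ_sum (fun k : Fin n =>
        if k ∈ A then (range (M * A.card + 1)) ×ˢ (univ : Finset Bool) else {(0, true)})
        (fun _ x => (1 / 2 : ℝ) ^ x.1)
  rw [← h3] at h2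
  have h4 : ∏ k : Fin n, ∑ x ∈ (if k ∈ A then (range (M * A.card + 1)) ×ˢ (univ : Finset Bool)
      else {(0, true)}), (1 / 2 : ℝ) ^ x.1 ≤ ∏ k : Fin n, (if k ∈ A then 4 else 1) := by
    refine Finset.prod_le_prod (fun k _ => Finset.sum_nonneg fun _ _ => by positivity)
      fun k _ => ?_
    by_cases hk : k ∈ A
    · simp only [hk, if_true]
      rw [Finset.sum_product]
      simp only [Finset.sum_const, Finset.card_univ, Fintype.card_bool, nsmul_eq_mul]
      rw [← Finset.mul_sum]
      have := geom_le (M * A.card)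
      push_cast
      linarith
    · simp [hk]
  rw [Finset.prod_ite_mem, Finset.univ_inter, Finset.prod_const] at h4
  calc ((idx n M A).card : ℝ) ≤ _ := h1
    _ ≤ _ := h2
    _ ≤ (2 : ℝ) ^ (M * A.card) * 4 ^ A.card := mul_le_mul_of_nonneg_left h4 (by positivity)
    _ = (2 ^ (M + 2)) ^ A.card := by
        rw [pow_mul, ← mul_pow, pow_add]
        norm_num

open Classical in
/-- the net in the unit ball of the coordinate subspace -/
noncomputable def net (n M : ℕ) (A : Finset (Fin n)) : Finset (Fin n → ℝ) :=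
  ((idx n M A).image (netVec n M A.card)).filter fun u => ∑ k, u k ^ 2 ≤ 1

lemma net_card (n M : ℕ) (A : Finset (Fin n)) :
    ((net n M A).card : ℝ) ≤ (2 ^ (M + 2)) ^ A.card := by
  classical
  refine le_trans ?_ (idx_card n M A)
  exact_mod_cast (Finset.card_filter_le _ _).trans Finset.card_image_le

lemma net_norm {n M : ℕ} {A : Finset (Fin n)} {u : Fin n → ℝ} (hu : u ∈ net n M A) :
    ∑ k, u k ^ 2 ≤ 1 := by
  classical
  exact (Finset.mem_filter.mp hu).2

lemma exists_net {n M : ℕ} (hM : 1 ≤ M) (A : Finset (Fin n)) (u : Fin n → ℝ)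
    (hA : ∀ k, k ∉ A → u k = 0) (hu : ∑ k, u k ^ 2 ≤ 1) :
    ∃ u' ∈ net n M A, ∑ k, (u k - u' k) ^ 2 ≤ 1 / M ^ 2 := by
  classical
  rcases A.eq_empty_or_nonempty with rfl | hne
  · have h0 : u = 0 := funext fun k => hA k (by simp)
    subst h0
    refine ⟨0, ?_, by simp⟩
    rw [net, Finset.mem_filter, Finset.mem_image]
    refine ⟨⟨fun _ => (0, true), ?_, ?_⟩, by simp⟩
    · rw [idx, Finset.mem_filter, Fintype.mem_piFinset]
      exact ⟨fun k => by simp, by simp⟩
    · funext k
      simp [netVec]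
  set d := A.card with hd
  have hdpos : 0 < d := Finset.card_pos.mpr hne
  have hdR : (0 : ℝ) < d := by exact_mod_cast hdpos
  have hsd : 0 < Real.sqrt d := Real.sqrt_pos.mpr hdR
  have hMR : (0 : ℝ) < M := by exact_mod_cast hM
  set c : ℝ := M * Real.sqrt d with hc
  have hcpos : 0 < c := mul_pos hMR hsd
  set w : Fin n → ℕ := fun k => ⌊c * |u k|⌋₊ with hw
  have hwle : ∀ k, (w k : ℝ) ≤ c * |u k| := fun k => Nat.floor_le (by positivity)
  have hwlt : ∀ k, c * |u k| < w k + 1 := fun k => Nat.lt_floor_add_one _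
  set p : Fin n → ℕ × Bool := fun k => if k ∈ A then (w k, decide (0 ≤ u k)) else (0, true)
    with hp
  have hsum : ∑ k, (p k).1 ≤ M * d := by
    have h1 : (∑ k, (p k).1 : ℝ) ≤ M * d := by
      have h2 : ∀ k, ((p k).1 : ℝ) ≤ c * |u k| := by
        intro k
        by_cases hk : k ∈ A
        · simp only [hp, hk, if_true]
          exact hwle k
        · simp only [hp, hk, if_false]
          have : (0 : ℝ) ≤ c * |u k| := by positivity
          simpa using this
      have h3 : ∑ k, |u k| = ∑ k ∈ A, |u k| := by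
        symm
        refine Finset.sum_subset (Finset.subset_univ _) fun k _ hk => ?_
        rw [hA k hk, abs_zero]
      have h4 : (∑ k ∈ A, |u k|) ^ 2 ≤ d := by
        have h5 := sq_sum_le_card_mul_sum_sq (s := A) (f := fun k => |u k|)
        simp only [sq_abs] at h5
        have h6 : ∑ k ∈ A, u k ^ 2 ≤ 1 :=
          (Finset.sum_le_univ_sum_of_nonneg fun k => sq_nonneg _).trans hu
        calc (∑ k ∈ A, |u k|) ^ 2 ≤ A.card * ∑ k ∈ A, u k ^ 2 := h5
          _ ≤ A.card * 1 := mul_le_mul_of_nonneg_left h6 (by positivity)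
          _ = d := by rw [mul_one]
      have h7 : ∑ k ∈ A, |u k| ≤ Real.sqrt d := Real.le_sqrt_of_sq_le h4
      calc (∑ k, (p k).1 : ℝ) ≤ ∑ k, c * |u k| := Finset.sum_le_sum fun k _ => h2 k
        _ = c * ∑ k ∈ A, |u k| := by rw [← Finset.mul_sum, h3]
        _ ≤ c * Real.sqrt d := mul_le_mul_of_nonneg_left h7 hcpos.le
        _ = M * d := by rw [hc, mul_assoc, Real.mul_self_sqrt hdR.le]
    exact_mod_cast h1
  have hpidx : p ∈ idx n M A := by
    rw [idx, Finset.mem_filter, Fintype.mem_piFinset]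
    refine ⟨fun k => ?_, hsum⟩
    by_cases hk : k ∈ A
    · simp only [hp, hk, if_true, Finset.mem_product, Finset.mem_range, Finset.mem_univ, and_true]
      have h1 : (p k).1 ≤ ∑ k, (p k).1 :=
        Finset.single_le_sum (f := fun k => (p k).1) (fun _ _ => Nat.zero_le _)
          (Finset.mem_univ k)
      have h2 : (p k).1 = w k := by simp only [hp, hk, if_true]
      rw [h2] at h1
      exact Nat.lt_succ_of_le (h1.trans hsum)
    · simp only [hp, hk, if_false, Finset.mem_singleton]
  have hval : ∀ k, netVec n M d p k = if k ∈ A then sg (decide (0 ≤ u k)) * w k / c else 0 := by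
    intro k
    by_cases hk : k ∈ A
    · simp [netVec, hp, hk, hc]
    · simp [netVec, hp, hk]
  have habs : ∀ k, u k = sg (decide (0 ≤ u k)) * |u k| := by
    intro k
    by_cases h : 0 ≤ u k
    · rw [decide_eq_true h, sg_true, one_mul, abs_of_nonneg h]
    · rw [decide_eq_false h, sg_false, abs_of_neg (not_le.mp h)]
      ring
  have hsq : ∀ k, netVec n M d p k ^ 2 ≤ u k ^ 2 := by
    intro k
    rw [hval]
    by_cases hk : k ∈ A
    · simp only [hk, if_true]
      rw [div_pow, mul_pow, sg_sq, one_mul, div_le_iff₀ (pow_pos hcpos 2), ← sq_abs (u k),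
        ← mul_pow]
      refine pow_le_pow_left₀ (Nat.cast_nonneg _) ?_ 2
      rw [mul_comm]
      exact hwle k
    · simp only [hk, if_false]
      nlinarith [sq_nonneg (u k)]
  refine ⟨netVec n M d p, ?_, ?_⟩
  · rw [net, Finset.mem_filter, Finset.mem_image]
    exact ⟨⟨p, hpidx, rfl⟩, (Finset.sum_le_sum fun k _ => hsq k).trans hu⟩
  · have h1 : ∀ k, (u k - netVec n M d p k) ^ 2 ≤ if k ∈ A then 1 / c ^ 2 else 0 := by
      intro k
      rw [hval]
      by_cases hk : k ∈ A
      · simp only [hk, if_true]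
        have h2 : u k - sg (decide (0 ≤ u k)) * w k / c =
            sg (decide (0 ≤ u k)) * ((c * |u k| - w k) / c) := by
          have h5 := habs k
          set s := sg (decide (0 ≤ u k)) with hs
          have h6 : s * ((c * |u k| - w k) / c) = s * |u k| - s * w k / c := by
            field_simp
          rw [h6, ← h5]
        rw [h2, mul_pow, sg_sq, one_mul, div_pow]
        refine div_le_div_of_nonneg_right ?_ (sq_nonneg c)
        have h3 := hwle k
        have h4 := hwlt k
        nlinarith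
      · simp [hk, hA k hk]
    calc ∑ k, (u k - netVec n M d p k) ^ 2 ≤ ∑ k, (if k ∈ A then 1 / c ^ 2 else 0) :=
          Finset.sum_le_sum fun k _ => h1 k
      _ = d * (1 / c ^ 2) := by
          rw [Finset.sum_ite_mem, Finset.univ_inter, Finset.sum_const, nsmul_eq_mul]
      _ = 1 / M ^ 2 := by
          rw [hc, mul_pow, Real.sq_sqrt hdR.le]
          field_simp

end Run7.h302.RM
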