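import Pool.Agent.Run7.h302.RM.Net
set_option autoImplicit false

/-! Norm bounds and lower bounds on sparse vectors from bounds on nets. -/

namespace Run7.h302.RM

open Finset

/-- the bilinear form of a matrix -/
noncomputable def B {n : ℕ} (g : Fin n → Fin n → ℝ) (u v : Fin n → ℝ) : ℝ :=
  ∑ j, v j * ∑ k, g j k * u k

lemma B_sub_left {n : ℕ} (g : Fin n → Fin n → ℝ) (u u' v : Fin n → ℝ) :
    B g u v = B g (fun k => u k - u' k) v + B g u' v := by
  simp only [B, ← Finset.sum_add_distrib, ← mul_add]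
  refine Finset.sum_congr rfl fun j _ => ?_
  congr 1
  refine Finset.sum_congr rfl fun k _ => ?_
  ring

lemma B_sub_right {n : ℕ} (g : Fin n → Fin n → ℝ) (u v v' : Fin n → ℝ) :
    B g u v = B g u (fun k => v k - v' k) + B g u v' := by
  simp only [B, ← Finset.sum_add_distrib]
  refine Finset.sum_congr rfl fun j _ => ?_
  ring

lemma B_smul_left {n : ℕ} (g : Fin n → Fin n → ℝ) (c : ℝ) (u v : Fin n → ℝ) :
    B g (fun k => c * u k) v = c * B g u v := by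
  simp only [B, Finset.mul_sum]
  refine Finset.sum_congr rfl fun j _ => Finset.sum_congr rfl fun k _ => ?_
  ring

lemma B_smul_right {n : ℕ} (g : Fin n → Fin n → ℝ) (c : ℝ) (u v : Fin n → ℝ) :
    B g u (fun k => c * v k) = c * B g u v := by
  simp only [B, Finset.mul_sum]
  refine Finset.sum_congr rfl fun j _ => Finset.sum_congr rfl fun k _ => ?_
  ring

lemma B_swap {n : ℕ} (g : Fin n → Fin n → ℝ) (u v : Fin n → ℝ) :
    B (fun j k => g k j) u v = B g v u := by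
  simp only [B, Finset.mul_sum]
  rw [Finset.sum_comm]
  refine Finset.sum_congr rfl fun j _ => Finset.sum_congr rfl fun k _ => ?_
  ring

/-- the unit ball -/
def ball (n : ℕ) : Set (Fin n → ℝ) := {u | ∑ k, u k ^ 2 ≤ 1}

lemma ball_compact (n : ℕ) : IsCompact (ball n) := by
  refine Metric.isCompact_of_isClosed_isBounded (isClosed_le (by fun_prop) continuous_const) ?_
  refine (Metric.isBounded_closedBall (x := (0 : Fin n → ℝ)) (r := 1)).subset fun u hu => ?_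
  rw [mem_closedBall_zero_iff, pi_norm_le_iff_of_nonneg zero_le_one]
  intro k
  have h1 : u k ^ 2 ≤ ∑ k, u k ^ 2 :=
    Finset.single_le_sum (f := fun k => u k ^ 2) (fun _ _ => sq_nonneg _) (Finset.mem_univ k)
  have h2 : u k ^ 2 ≤ 1 := h1.trans hu
  rw [Real.norm_eq_abs]
  exact abs_le_one_iff_mul_self_le_one.mpr (by nlinarith)

lemma bilin_bound {n : ℕ} (g : Fin n → Fin n → ℝ) (t : ℝ)
    (h : ∀ u ∈ net n 4 univ, ∀ v ∈ net n 4 univ, B g u v ≤ t) :
    ∀ u ∈ ball n, ∀ v ∈ ball n, B g u v ≤ 2 * t := by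
  have hc : Continuous fun p : (Fin n → ℝ) × (Fin n → ℝ) => B g p.1 p.2 := by
    unfold B
    fun_prop
  have h0 : (0 : Fin n → ℝ) ∈ ball n := by simp [ball]
  obtain ⟨⟨u0, v0⟩, hmem, hmax⟩ := ((ball_compact n).prod (ball_compact n)).exists_isMaxOn
    ⟨(0, 0), h0, h0⟩ hc.continuousOn
  have hmax' : ∀ u ∈ ball n, ∀ v ∈ ball n, B g u v ≤ B g u0 v0 := fun u hu v hv =>
    hmax (Set.mk_mem_prod hu hv)
  obtain ⟨hu0, hv0⟩ : u0 ∈ ball n ∧ v0 ∈ ball n := hmem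
  obtain ⟨u', hu', hu'd⟩ := exists_net (M := 4) (by norm_num) univ u0 (fun k hk => by simp at hk) hu0
  obtain ⟨v', hv', hv'd⟩ := exists_net (M := 4) (by norm_num) univ v0 (fun k hk => by simp at hk) hv0
  have hub : u' ∈ ball n := net_norm hu'
  have h4 : ∀ w w' : Fin n → ℝ, ∑ k, (w k - w' k) ^ 2 ≤ 1 / (4 : ℕ) ^ 2 →
      (fun k => 4 * (w k - w' k)) ∈ ball n := by
    intro w w' hw
    show ∑ k, (4 * (w k - w' k)) ^ 2 ≤ 1
    simp only [mul_pow, ← Finset.mul_sum]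
    norm_num at hw ⊢
    linarith
  have e1 : B g (fun k => u0 k - u' k) v0 ≤ B g u0 v0 / 4 := by
    have := hmax' _ (h4 u0 u' hu'd) v0 hv0
    rw [B_smul_left] at this
    linarith
  have e2 : B g u' (fun k => v0 k - v' k) ≤ B g u0 v0 / 4 := by
    have := hmax' u' hub _ (h4 v0 v' hv'd)
    rw [B_smul_right] at this
    linarith
  have e3 := h u' hu' v' hv'
  have e4 := B_sub_left g u0 u' v0
  have e5 := B_sub_right g u' v0 v'
  intro u hu v hv
  have := hmax' u hu v hv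
  linarith

lemma op_bound {n : ℕ} (g : Fin n → Fin n → ℝ) (t : ℝ)
    (h : ∀ u ∈ ball n, ∀ v ∈ ball n, B g u v ≤ t) (u : Fin n → ℝ) :
    ∑ j, (∑ k, g j k * u k) ^ 2 ≤ t ^ 2 * ∑ k, u k ^ 2 := by
  set w : Fin n → ℝ := fun j => ∑ k, g j k * u k with hw
  show ∑ j, w j ^ 2 ≤ t ^ 2 * ∑ k, u k ^ 2
  have hB : B g u w = ∑ j, w j ^ 2 := by
    simp only [B, hw]
    exact Finset.sum_congr rfl fun j _ => by ring
  have hs0 : 0 ≤ ∑ k, u k ^ 2 := Finset.sum_nonneg fun _ _ => sq_nonneg _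
  have hr0 : 0 ≤ ∑ k, w k ^ 2 := Finset.sum_nonneg fun _ _ => sq_nonneg _
  rcases hs0.eq_or_lt with hs | hs
  · have hu0 : ∀ k, u k = 0 := by
      intro k
      have := (Finset.sum_eq_zero_iff_of_nonneg (fun k _ => sq_nonneg (u k))).mp hs.symm k
        (Finset.mem_univ k)
      exact pow_eq_zero_iff (two_ne_zero) |>.mp this
    have hw0 : ∀ j, w j = 0 := fun j => by simp [hw, hu0]
    simp [hw0, hu0]
  rcases hr0.eq_or_lt with hr | hr
  · rw [← hr]
    positivity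
  set s := ∑ k, u k ^ 2 with hsdef
  set r := ∑ k, w k ^ 2 with hrdef
  have hss : 0 < Real.sqrt s := Real.sqrt_pos.mpr hs
  have hsr : 0 < Real.sqrt r := Real.sqrt_pos.mpr hr
  have hball : ∀ (x : Fin n → ℝ) (y : ℝ), ∑ k, x k ^ 2 = y → 0 < y →
      (fun k => (Real.sqrt y)⁻¹ * x k) ∈ ball n := by
    intro x y hx hy
    show ∑ k, ((Real.sqrt y)⁻¹ * x k) ^ 2 ≤ 1
    simp only [mul_pow, ← Finset.mul_sum, hx, inv_pow, Real.sq_sqrt hy.le]
    rw [inv_mul_cancel₀ hy.ne']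
  have := h _ (hball u s rfl hs) _ (hball w r rfl hr)
  rw [B_smul_left, B_smul_right, hB] at this
  have hr2 : Real.sqrt r * Real.sqrt r = r := Real.mul_self_sqrt hr.le
  have hs2 : Real.sqrt s * Real.sqrt s = s := Real.mul_self_sqrt hs.le
  have h1 : (Real.sqrt s)⁻¹ * ((Real.sqrt r)⁻¹ * r) = Real.sqrt r / Real.sqrt s := by
    have h0 : (Real.sqrt r)⁻¹ * r = Real.sqrt r := by
      rw [inv_mul_eq_div]
      exact Real.div_sqrt
    rw [h0, inv_mul_eq_div]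
  rw [h1, div_le_iff₀ hss] at this
  calc r = Real.sqrt r ^ 2 := by rw [Real.sq_sqrt hr.le]
    _ ≤ (t * Real.sqrt s) ^ 2 := pow_le_pow_left₀ hsr.le this 2
    _ = t ^ 2 * s := by rw [mul_pow, Real.sq_sqrt hs.le]

/-- the lower bound on sparse vectors -/
lemma sparse_lower {n : ℕ} (g : Fin n → Fin n → ℝ) (A R : Finset (Fin n))
    (hop : ∀ u : Fin n → ℝ, ∑ j, (∑ k, g j k * u k) ^ 2 ≤ 100 * n * ∑ k, u k ^ 2)
    (hnet : ∀ u ∈ net n 64 A, n / 4 * ∑ k, u k ^ 2 ≤ ∑ j ∈ R, (∑ k, g j k * u k) ^ 2)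
    (u : Fin n → ℝ) (hu : ∀ k, k ∉ A → u k = 0) :
    n / 36 * ∑ k, u k ^ 2 ≤ ∑ j ∈ R, (∑ k, g j k * u k) ^ 2 := by
  have key : ∀ u : Fin n → ℝ, (∀ k, k ∉ A → u k = 0) → ∑ k, u k ^ 2 = 1 →
      (n : ℝ) / 36 ≤ ∑ j ∈ R, (∑ k, g j k * u k) ^ 2 := by
    intro u hu hu1
    obtain ⟨u', hu', hd⟩ := exists_net (M := 64) (by norm_num) A u hu hu1.le
    have h1 := hnet u' hu'
    have h2 := hop (fun k => u k - u' k)
    have h3 : ∑ j ∈ R, (∑ k, g j k * u' k) ^ 2 ≤ 2 * ∑ j ∈ R, (∑ k, g j k * u k) ^ 2 +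
        2 * ∑ j, (∑ k, g j k * (u k - u' k)) ^ 2 := by
      have h4 : ∑ j ∈ R, (∑ k, g j k * (u k - u' k)) ^ 2 ≤
          ∑ j, (∑ k, g j k * (u k - u' k)) ^ 2 :=
        Finset.sum_le_univ_sum_of_nonneg fun j => sq_nonneg _
      have h5 : ∑ j ∈ R, (∑ k, g j k * u' k) ^ 2 ≤ 2 * ∑ j ∈ R, (∑ k, g j k * u k) ^ 2 +
          2 * ∑ j ∈ R, (∑ k, g j k * (u k - u' k)) ^ 2 := by
        rw [Finset.mul_sum, Finset.mul_sum, ← Finset.sum_add_distrib]
        refine Finset.sum_le_sum fun j _ => ?_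
        have h6 : ∑ k, g j k * (u k - u' k) = ∑ k, g j k * u k - ∑ k, g j k * u' k := by
          rw [← Finset.sum_sub_distrib]
          exact Finset.sum_congr rfl fun k _ => by ring
        rw [h6]
        nlinarith [sq_nonneg (2 * ∑ k, g j k * u k - ∑ k, g j k * u' k)]
      linarith
    have h7 : (1 : ℝ) ≤ 2 * ∑ k, u' k ^ 2 + 2 * ∑ k, (u k - u' k) ^ 2 := by
      rw [← hu1, Finset.mul_sum, Finset.mul_sum, ← Finset.sum_add_distrib]
      refine Finset.sum_le_sum fun k _ => ?_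
      nlinarith [sq_nonneg (u k - 2 * u' k)]
    norm_num at hd
    have hn : (0 : ℝ) ≤ n := Nat.cast_nonneg n
    have h8 : (n : ℝ) / 4 * (1 / 2 - 1 / 4096) ≤ n / 4 * ∑ k, u' k ^ 2 :=
      mul_le_mul_of_nonneg_left (by linarith) (by positivity)
    have h9 : 100 * (n : ℝ) * ∑ k, (u k - u' k) ^ 2 ≤ 100 * n * (1 / 4096) :=
      mul_le_mul_of_nonneg_left hd (by positivity)
    nlinarith
  have hs0 : 0 ≤ ∑ k, u k ^ 2 := Finset.sum_nonneg fun _ _ => sq_nonneg _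
  rcases hs0.eq_or_lt with hs | hs
  · rw [← hs, mul_zero]
    exact Finset.sum_nonneg fun _ _ => sq_nonneg _
  set s := ∑ k, u k ^ 2 with hsdef
  have hss : 0 < Real.sqrt s := Real.sqrt_pos.mpr hs
  have h1 := key (fun k => (Real.sqrt s)⁻¹ * u k) (fun k hk => by rw [hu k hk, mul_zero]) (by
    simp only [mul_pow, ← Finset.mul_sum, inv_pow, Real.sq_sqrt hs.le]
    rw [← hsdef]
    exact inv_mul_cancel₀ hs.ne')
  have h2 : ∑ j ∈ R, (∑ k, g j k * ((Real.sqrt s)⁻¹ * u k)) ^ 2 =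
      s⁻¹ * ∑ j ∈ R, (∑ k, g j k * u k) ^ 2 := by
    rw [Finset.mul_sum]
    refine Finset.sum_congr rfl fun j _ => ?_
    have : ∑ k, g j k * ((Real.sqrt s)⁻¹ * u k) = (Real.sqrt s)⁻¹ * ∑ k, g j k * u k := by
      rw [Finset.mul_sum]
      exact Finset.sum_congr rfl fun k _ => by ring
    rw [this, mul_pow, inv_pow, Real.sq_sqrt hs.le]
  rw [h2] at h1
  have h3 := mul_le_mul_of_nonneg_left h1 hs.le
  rw [← mul_assoc, mul_inv_cancel₀ hs.ne', one_mul] at h3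
  linarith

end Run7.h302.RM
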