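import Mathlib
set_option autoImplicit false

/-! Random signs: exponential moments of quadratic and bilinear forms, by counting. -/

namespace Run7.h302.RM

open Finset

/-- the sign of a truth value -/
noncomputable def sg (b : Bool) : ℝ := if b then 1 else -1

@[simp] lemma sg_true : sg true = 1 := by simp [sg]
@[simp] lemma sg_false : sg false = -1 := by simp [sg]
lemma sg_sq (b : Bool) : sg b ^ 2 = 1 := by cases b <;> simp
lemma abs_sg (b : Bool) : |sg b| = 1 := by cases b <;> simp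

/-- the linear form with signs -/
noncomputable def X {n : ℕ} (a : Fin n → ℝ) (η : Fin n → Bool) : ℝ := ∑ k, sg (η k) * a k

lemma sum_prod {ι κ : Type*} [Fintype ι] [DecidableEq ι] [Fintype κ] (F : ι → κ → ℝ) :
    ∑ ω : ι → κ, ∏ j, F j (ω j) = ∏ j, ∑ x, F j x := by
  rw [Finset.prod_univ_sum, Fintype.piFinset_univ]

lemma sum_cons (n : ℕ) (f : (Fin (n + 1) → Bool) → ℝ) :
    ∑ ω, f ω = ∑ η : Fin n → Bool, (f (Fin.cons true η) + f (Fin.cons false η)) := by
  rw [← (Fin.consEquiv (fun _ => Bool)).sum_comp, Fintype.sum_prod_type_right]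
  simp [Fin.consEquiv]

lemma X_cons {n : ℕ} (a : Fin (n + 1) → ℝ) (b : Bool) (η : Fin n → Bool) :
    X a (Fin.cons b η : Fin (n + 1) → Bool) = sg b * a 0 + X (fun k => a k.succ) η := by
  simp [X, Fin.sum_univ_succ]

lemma moment_two : ∀ (n : ℕ) (a : Fin n → ℝ),
    ∑ η, X a η ^ 2 = 2 ^ n * ∑ k, a k ^ 2
  | 0, a => by simp [X]
  | n + 1, a => by
    rw [sum_cons]
    have h := moment_two n (fun k => a k.succ)
    have h1 : ∀ η : Fin n → Bool, X a (Fin.cons true η : Fin (n + 1) → Bool) ^ 2 +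
        X a (Fin.cons false η : Fin (n + 1) → Bool) ^ 2 =
        2 * X (fun k => a k.succ) η ^ 2 + 2 * a 0 ^ 2 := by
      intro η
      rw [X_cons, X_cons, sg_true, sg_false]
      ring
    rw [Finset.sum_congr rfl fun η _ => h1 η, Finset.sum_add_distrib, ← Finset.mul_sum, h,
      Finset.sum_const, Finset.card_univ, Fintype.card_fun, Fintype.card_bool, Fintype.card_fin,
      Fin.sum_univ_succ, nsmul_eq_mul]
    push_cast
    ring

lemma moment_four : ∀ (n : ℕ) (a : Fin n → ℝ),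
    ∑ η, X a η ^ 4 ≤ 2 ^ n * (3 * (∑ k, a k ^ 2) ^ 2)
  | 0, a => by simp [X]
  | n + 1, a => by
    rw [sum_cons]
    have h := moment_four n (fun k => a k.succ)
    have h2 := moment_two n (fun k => a k.succ)
    have h1 : ∀ η : Fin n → Bool, X a (Fin.cons true η : Fin (n + 1) → Bool) ^ 4 +
        X a (Fin.cons false η : Fin (n + 1) → Bool) ^ 4 =
        2 * X (fun k => a k.succ) η ^ 4 + 12 * a 0 ^ 2 * X (fun k => a k.succ) η ^ 2
          + 2 * a 0 ^ 4 := by
      intro η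
      rw [X_cons, X_cons, sg_true, sg_false]
      ring
    rw [Finset.sum_congr rfl fun η _ => h1 η, Finset.sum_add_distrib, Finset.sum_add_distrib,
      ← Finset.mul_sum, ← Finset.mul_sum, h2,
      Finset.sum_const, Finset.card_univ, Fintype.card_fun, Fintype.card_bool, Fintype.card_fin,
      Fin.sum_univ_succ, nsmul_eq_mul]
    push_cast
    set S := ∑ k : Fin n, a k.succ ^ 2 with hS
    have hS0 : 0 ≤ S := Finset.sum_nonneg fun _ _ => sq_nonneg _
    have h3 : (0 : ℝ) ≤ 2 ^ n * a 0 ^ 4 := by positivity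
    have h5 : (2 : ℝ) ^ (n + 1) * (3 * (a 0 ^ 2 + S) ^ 2) =
        2 * (2 ^ n * (3 * S ^ 2)) + 12 * a 0 ^ 2 * (2 ^ n * S) + 6 * (2 ^ n * a 0 ^ 4) := by ring
    rw [h5]
    linarith

lemma exp_neg_le {x : ℝ} (hx : 0 ≤ x) : Real.exp (-x) ≤ 1 - x + x ^ 2 / 2 := by
  have h1 := Real.quadratic_le_exp_of_nonneg hx
  have h2 : Real.exp (-x) * Real.exp x = 1 := by rw [← Real.exp_add]; simp
  have h3 : (0 : ℝ) < Real.exp (-x) := Real.exp_pos _
  have h4 : (0 : ℝ) < 1 + x + x ^ 2 / 2 := by positivity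
  have h5 : Real.exp (-x) * (1 + x + x ^ 2 / 2) ≤ 1 := by
    calc Real.exp (-x) * (1 + x + x ^ 2 / 2) ≤ Real.exp (-x) * Real.exp x :=
          mul_le_mul_of_nonneg_left h1 h3.le
      _ = 1 := h2
  have h6 : 1 ≤ (1 - x + x ^ 2 / 2) * (1 + x + x ^ 2 / 2) := by nlinarith [sq_nonneg (x ^ 2)]
  by_contra h
  push Not at h
  have : (1 - x + x ^ 2 / 2) * (1 + x + x ^ 2 / 2) < Real.exp (-x) * (1 + x + x ^ 2 / 2) :=
    mul_lt_mul_of_pos_right h h4
  linarith

/-- the exponential moment of minus a third of the square -/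
lemma exp_row {n : ℕ} (a : Fin n → ℝ) (ha : ∑ k, a k ^ 2 = 1) :
    ∑ η, Real.exp (-(X a η ^ 2 / 3)) ≤ 2 ^ n * (5 / 6) := by
  have h2 := moment_two n a
  have h4 := moment_four n a
  rw [ha] at h2 h4
  calc ∑ η, Real.exp (-(X a η ^ 2 / 3))
      ≤ ∑ η, (1 - X a η ^ 2 / 3 + (X a η ^ 2 / 3) ^ 2 / 2) :=
        Finset.sum_le_sum fun η _ => exp_neg_le (by positivity)
    _ = ∑ η : Fin n → Bool, ((1 : ℝ) - 1 / 3 * X a η ^ 2 + 1 / 18 * X a η ^ 4) :=
        Finset.sum_congr rfl fun η _ => by ring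
    _ = 2 ^ n - 1 / 3 * 2 ^ n + 1 / 18 * ∑ η, X a η ^ 4 := by
        rw [Finset.sum_add_distrib, Finset.sum_sub_distrib, ← Finset.mul_sum, ← Finset.mul_sum, h2]
        simp
    _ ≤ 2 ^ n * (5 / 6) := by nlinarith [h4]

/-- Quadratic lower deviation: for a unit vector and a set `R` of rows. -/
lemma lower_dev {n : ℕ} (a : Fin n → ℝ) (ha : ∑ k, a k ^ 2 = 1) (R : Finset (Fin n)) (s : ℝ) :
    (({ω : Fin n → Fin n → Bool | ∑ j ∈ R, X a (ω j) ^ 2 ≤ s} : Finset _).card : ℝ) ≤
      (2 ^ n) ^ n * (Real.exp (s / 3) * (5 / 6) ^ R.card) := by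
  have h1 : ∑ ω : Fin n → Fin n → Bool, Real.exp (-(∑ j ∈ R, X a (ω j) ^ 2) / 3) ≤
      (2 ^ n) ^ n * (5 / 6) ^ R.card := by
    have h2 : ∀ ω : Fin n → Fin n → Bool, Real.exp (-(∑ j ∈ R, X a (ω j) ^ 2) / 3) =
        ∏ j, (if j ∈ R then Real.exp (-(X a (ω j) ^ 2 / 3)) else 1) := by
      intro ω
      rw [Finset.prod_ite_mem, Finset.univ_inter, ← Real.exp_sum]
      congr 1
      rw [Finset.sum_neg_distrib, ← Finset.sum_div]
      ring
    rw [Finset.sum_congr rfl fun ω _ => h2 ω]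
    rw [sum_prod (fun j η => if j ∈ R then Real.exp (-(X a η ^ 2 / 3)) else 1)]
    calc ∏ j, ∑ η : Fin n → Bool, (if j ∈ R then Real.exp (-(X a η ^ 2 / 3)) else 1)
        ≤ ∏ j : Fin n, (2 ^ n * (if j ∈ R then (5 / 6 : ℝ) else 1)) := by
          refine Finset.prod_le_prod (fun j _ => Finset.sum_nonneg fun η _ => ?_) fun j _ => ?_
          · split_ifs
            · exact (Real.exp_pos _).le
            · exact zero_le_one
          · by_cases hj : j ∈ R
            · simp only [hj, if_true]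
              exact exp_row a ha
            · simp [hj]
      _ = (2 ^ n) ^ n * (5 / 6) ^ R.card := by
          rw [Finset.prod_mul_distrib, Finset.prod_const, Finset.card_univ, Fintype.card_fin,
            Finset.prod_ite_mem, Finset.univ_inter, Finset.prod_const]
  have h3 : (({ω : Fin n → Fin n → Bool | ∑ j ∈ R, X a (ω j) ^ 2 ≤ s} : Finset _).card : ℝ) *
      Real.exp (-s / 3) ≤ ∑ ω : Fin n → Fin n → Bool, Real.exp (-(∑ j ∈ R, X a (ω j) ^ 2) / 3) := by
    rw [← nsmul_eq_mul, ← Finset.sum_const]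
    refine le_trans (Finset.sum_le_sum (g := fun ω : Fin n → Fin n → Bool =>
      Real.exp (-(∑ j ∈ R, X a (ω j) ^ 2) / 3)) fun ω hω => ?_) ?_
    · apply Real.exp_le_exp.mpr
      have := (Finset.mem_filter.mp hω).2
      linarith
    · exact Finset.sum_le_univ_sum_of_nonneg fun ω => (Real.exp_pos _).le
  have h4 : Real.exp (-s / 3) * Real.exp (s / 3) = 1 := by
    rw [← Real.exp_add]
    simp [neg_div]
  calc (({ω : Fin n → Fin n → Bool | ∑ j ∈ R, X a (ω j) ^ 2 ≤ s} : Finset _).card : ℝ)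
      = (({ω : Fin n → Fin n → Bool | ∑ j ∈ R, X a (ω j) ^ 2 ≤ s} : Finset _).card : ℝ) *
        Real.exp (-s / 3) * Real.exp (s / 3) := by rw [mul_assoc, h4, mul_one]
    _ ≤ (2 ^ n) ^ n * (5 / 6) ^ R.card * Real.exp (s / 3) :=
        mul_le_mul_of_nonneg_right (h3.trans h1) (Real.exp_pos _).le
    _ = _ := by ring

/-- Upper deviation of bilinear forms. -/
lemma upper_dev {n : ℕ} (u v : Fin n → ℝ) (hu : ∑ k, u k ^ 2 ≤ 1) (hv : ∑ j, v j ^ 2 ≤ 1)
    (t : ℝ) (ht : 0 ≤ t) :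
    (({ω : Fin n → Fin n → Bool | t ≤ ∑ j, v j * X u (ω j)} : Finset _).card : ℝ) ≤
      (2 ^ n) ^ n * Real.exp (-(t ^ 2) / 2) := by
  have h1 : ∑ ω : Fin n → Fin n → Bool, Real.exp (t * ∑ j, v j * X u (ω j)) ≤
      (2 ^ n) ^ n * Real.exp (t ^ 2 / 2) := by
    have h2 : ∀ ω : Fin n → Fin n → Bool, Real.exp (t * ∑ j, v j * X u (ω j)) =
        ∏ j, ∏ k, Real.exp (sg (ω j k) * (t * v j * u k)) := by
      intro ω
      rw [Finset.mul_sum, Real.exp_sum]
      refine Finset.prod_congr rfl fun j _ => ?_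
      rw [← Real.exp_sum]
      congr 1
      rw [X, Finset.mul_sum, Finset.mul_sum]
      exact Finset.sum_congr rfl fun k _ => by ring
    rw [Finset.sum_congr rfl fun ω _ => h2 ω,
      sum_prod (fun j (η : Fin n → Bool) => ∏ k, Real.exp (sg (η k) * (t * v j * u k)))]
    have h3 : ∀ j, ∑ η : Fin n → Bool, ∏ k, Real.exp (sg (η k) * (t * v j * u k)) ≤
        2 ^ n * Real.exp (t ^ 2 / 2 * v j ^ 2) := by
      intro j
      rw [sum_prod (fun k b => Real.exp (sg b * (t * v j * u k)))]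
      calc ∏ k, ∑ b, Real.exp (sg b * (t * v j * u k))
          ≤ ∏ k : Fin n, (2 * Real.exp ((t * v j * u k) ^ 2 / 2)) := by
            refine Finset.prod_le_prod (fun k _ => Finset.sum_nonneg fun _ _ =>
              (Real.exp_pos _).le) fun k _ => ?_
            have := Real.cosh_le_exp_half_sq (t * v j * u k)
            rw [Real.cosh_eq] at this
            simp only [Fintype.sum_bool, sg_true, sg_false, one_mul, neg_one_mul]
            linarith
        _ = 2 ^ n * Real.exp (t ^ 2 / 2 * v j ^ 2 * ∑ k, u k ^ 2) := by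
            rw [Finset.prod_mul_distrib, Finset.prod_const, Finset.card_univ, Fintype.card_fin,
              ← Real.exp_sum]
            congr 2
            rw [Finset.mul_sum]
            exact Finset.sum_congr rfl fun k _ => by ring
        _ ≤ 2 ^ n * Real.exp (t ^ 2 / 2 * v j ^ 2) := by
            refine mul_le_mul_of_nonneg_left (Real.exp_le_exp.mpr ?_) (by positivity)
            have : 0 ≤ t ^ 2 / 2 * v j ^ 2 := by positivity
            nlinarith
    calc ∏ j, ∑ η : Fin n → Bool, ∏ k, Real.exp (sg (η k) * (t * v j * u k))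
        ≤ ∏ j : Fin n, (2 ^ n * Real.exp (t ^ 2 / 2 * v j ^ 2)) :=
          Finset.prod_le_prod (fun j _ => Finset.sum_nonneg fun η _ =>
            Finset.prod_nonneg fun k _ => (Real.exp_pos _).le) fun j _ => h3 j
      _ = (2 ^ n) ^ n * Real.exp (t ^ 2 / 2 * ∑ j, v j ^ 2) := by
          rw [Finset.prod_mul_distrib, Finset.prod_const, Finset.card_univ, Fintype.card_fin,
            ← Real.exp_sum, Finset.mul_sum]
      _ ≤ (2 ^ n) ^ n * Real.exp (t ^ 2 / 2) := by
          refine mul_le_mul_of_nonneg_left (Real.exp_le_exp.mpr ?_) (by positivity)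
          have : 0 ≤ t ^ 2 / 2 := by positivity
          nlinarith
  have h3 : (({ω : Fin n → Fin n → Bool | t ≤ ∑ j, v j * X u (ω j)} : Finset _).card : ℝ) *
      Real.exp (t ^ 2) ≤ ∑ ω : Fin n → Fin n → Bool, Real.exp (t * ∑ j, v j * X u (ω j)) := by
    rw [← nsmul_eq_mul, ← Finset.sum_const]
    refine le_trans (Finset.sum_le_sum (g := fun ω : Fin n → Fin n → Bool =>
      Real.exp (t * ∑ j, v j * X u (ω j))) fun ω hω => ?_) ?_
    · apply Real.exp_le_exp.mpr
      have := (Finset.mem_filter.mp hω).2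
      nlinarith
    · exact Finset.sum_le_univ_sum_of_nonneg fun ω => (Real.exp_pos _).le
  have h4 : Real.exp (t ^ 2) * Real.exp (-(t ^ 2)) = 1 := by
    rw [← Real.exp_add]
    simp
  calc (({ω : Fin n → Fin n → Bool | t ≤ ∑ j, v j * X u (ω j)} : Finset _).card : ℝ)
      = (({ω : Fin n → Fin n → Bool | t ≤ ∑ j, v j * X u (ω j)} : Finset _).card : ℝ) *
        Real.exp (t ^ 2) * Real.exp (-(t ^ 2)) := by rw [mul_assoc, h4, mul_one]
    _ ≤ (2 ^ n) ^ n * Real.exp (t ^ 2 / 2) * Real.exp (-(t ^ 2)) :=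
        mul_le_mul_of_nonneg_right (h3.trans h1) (Real.exp_pos _).le
    _ = _ := by
        rw [mul_assoc, ← Real.exp_add]
        congr 2
        ring

end Run7.h302.RM
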