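import Pool.Agent.Run7.h288.SysStm
set_option autoImplicit false

/-! A complemented subspace with a 2-symmetric basis gives a system. -/

namespace Run7.h302.RM

open Finset Run7.h288

lemma abs_sg' (b : Bool) : |sg b| = 1 := by cases b <;> simp

lemma sg_pm (b : Bool) : sg b = 1 ∨ sg b = -1 := by cases b <;> simp

theorem sys : S_Sys := by
  classical
  intro X _ _ k K C hK e hli P hP hPid hPC hsym
  -- coordinates
  set L : X →ₗ[ℝ] Submodule.span ℝ (Set.range e) := P.toLinearMap.codRestrict _ hP with hL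
  set ψ : Fin k → X →ₗ[ℝ] ℝ := fun j => (Finsupp.lapply j ∘ₗ hli.repr) ∘ₗ L with hψ
  have hPx : ∀ x, P x = ∑ j, ψ j x • e j := by
    intro x
    have h1 := hli.linearCombination_repr (L x)
    rw [Finsupp.linearCombination_apply, Finsupp.sum_fintype _ _ (fun i => zero_smul ℝ (e i))] at h1
    have h2 : ((L x : Submodule.span ℝ (Set.range e)) : X) = P x := rfl
    rw [← h2, ← h1]
    rfl
  have hψe : ∀ i j, ψ i (e j) = if i = j then 1 else 0 := by
    intro i j
    have h1 : L (e j) = ⟨e j, Submodule.subset_span ⟨j, rfl⟩⟩ := by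
      apply Subtype.ext
      exact hPid (e j) (Submodule.subset_span ⟨j, rfl⟩)
    show (hli.repr (L (e j))) i = _
    rw [h1, hli.repr_eq_single j _ rfl, Finsupp.single_apply]
    simp only [eq_comm]
  have hsP : ∀ (x : X) (σ : Equiv.Perm (Fin k)) (E : Fin k → ℝ), (∀ i, E i = 1 ∨ E i = -1) →
      ‖∑ j, (E j * ψ j x) • e (σ j)‖ ≤ 2 * (C * ‖x‖) := by
    intro x σ E hE
    refine (hsym σ E hE (fun j => ψ j x)).trans ?_
    rw [← hPx]
    exact mul_le_mul_of_nonneg_left ((P.le_opNorm x).trans
      (mul_le_mul_of_nonneg_right hPC (norm_nonneg x))) (by norm_num)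
  refine ⟨fun i => ψ (Fin.castLE hK i), ⟨fun i => ?_, fun i j hij => ?_, fun i j => ?_, ?_⟩⟩
  · simp [hψe]
  · rw [hψe, if_neg]
    exact fun h => hij (Fin.castLE_injective hK h)
  · set i' := Fin.castLE hK i
    set j' := Fin.castLE hK j
    have h1 := hsym (Equiv.swap j' i') (fun _ => 1) (fun _ => Or.inl rfl)
      (fun l => if l = j' then 1 else 0)
    have h2 : ∑ l, ((1 : ℝ) * (if l = j' then 1 else 0)) • e ((Equiv.swap j' i') l) = e i' := by
      rw [Finset.sum_eq_single j']
      · simp
      · intro b _ hb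
        simp [hb]
      · simp
    have h3 : ∑ l, (if l = j' then (1 : ℝ) else 0) • e l = e j' := by
      rw [Finset.sum_eq_single j']
      · simp
      · intro b _ hb
        simp [hb]
      · simp
    rw [h2, h3] at h1
    exact h1
  · intro r u hu ε η x
    rcases r with _ | r
    · simp
    set v : Fin (r + 1) → Fin k := fun i => Fin.castLE hK (u i) with hv
    have hvinj : Function.Injective v := fun a b h => hu (Fin.castLE_injective hK h)
    set w : Fin (r + 1) → X := fun s =>
      ∑ i, (sg (ε i) * sg (η (i + s)) * ψ (v i) x) • e (v (i + s)) with hw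
    have hws : ∀ s, ‖w s‖ ≤ 2 * (C * ‖x‖) := by
      intro s
      set σ : Equiv.Perm (Fin k) := (Equiv.addRight s).viaFintypeEmbedding ⟨v, hvinj⟩ with hσ
      have hσv : ∀ i, σ (v i) = v (i + s) := by
        intro i
        exact Equiv.Perm.viaFintypeEmbedding_apply_image (Equiv.addRight s) ⟨v, hvinj⟩ i
      set E : ℝ → Fin k → ℝ := fun δ => Function.extend v (fun i => sg (ε i) * sg (η (i + s)))
        (fun _ => δ) with hE
      have hEv : ∀ δ i, E δ (v i) = sg (ε i) * sg (η (i + s)) := fun δ i =>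
        hvinj.extend_apply _ _ i
      have hEn : ∀ δ j, j ∉ univ.image v → E δ j = δ := by
        intro δ j hj
        refine Function.extend_apply' _ _ _ ?_
        rintro ⟨a, rfl⟩
        exact hj (Finset.mem_image_of_mem v (Finset.mem_univ a))
      have hE1 : ∀ δ, δ = 1 ∨ δ = -1 → ∀ j, E δ j = 1 ∨ E δ j = -1 := by
        intro δ hδ j
        by_cases hj : j ∈ univ.image v
        · obtain ⟨i, -, rfl⟩ := Finset.mem_image.mp hj
          rw [hEv]
          rcases sg_pm (ε i) with h | h <;> rcases sg_pm (η (i + s)) with h' | h' <;>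
            rw [h, h'] <;> norm_num
        · rw [hEn δ j hj]
          exact hδ
      set z : X := ∑ j ∈ univ \ univ.image v, ψ j x • e (σ j) with hz
      have hsum : ∀ δ, ∑ j, (E δ j * ψ j x) • e (σ j) = w s + δ • z := by
        intro δ
        rw [← Finset.sum_sdiff (Finset.subset_univ (univ.image v)), add_comm]
        congr 1
        · rw [Finset.sum_image fun a _ b _ h => hvinj h]
          refine Finset.sum_congr rfl fun i _ => ?_
          rw [hEv, hσv]
        · rw [hz, Finset.smul_sum]
          refine Finset.sum_congr rfl fun j hj => ?_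
          rw [hEn δ j (Finset.mem_sdiff.mp hj).2, smul_smul]
      have h1 := hsP x σ (E 1) (hE1 1 (Or.inl rfl))
      have h2 := hsP x σ (E (-1)) (hE1 (-1) (Or.inr rfl))
      rw [hsum] at h1 h2
      have h3 : (2 : ℝ) • w s = (w s + (1 : ℝ) • z) + (w s + (-1 : ℝ) • z) := by
        rw [two_smul, one_smul, neg_smul, one_smul]
        abel
      have h4 : ‖(2 : ℝ) • w s‖ ≤ 2 * (C * ‖x‖) + 2 * (C * ‖x‖) := by
        rw [h3]
        exact (norm_add_le _ _).trans (add_le_add h1 h2)
      rw [norm_smul, Real.norm_eq_abs, abs_of_pos (by norm_num : (0 : ℝ) < 2)] at h4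
      linarith
    have hsumw : ∑ s, w s = (∑ i, sg (ε i) * ψ (v i) x) • ∑ i, sg (η i) • e (v i) := by
      rw [hw, Finset.sum_comm, Finset.sum_smul]
      refine Finset.sum_congr rfl fun i _ => ?_
      have h1 : ∑ i', sg (η i') • e (v i') = ∑ s, sg (η (i + s)) • e (v (i + s)) :=
        (Equiv.sum_comp (Equiv.addLeft i) fun i' => sg (η i') • e (v i')).symm
      rw [h1, Finset.smul_sum]
      refine Finset.sum_congr rfl fun s _ => ?_
      rw [smul_smul]
      congr 1
      ring
    have h5 : ‖∑ s, w s‖ ≤ (r + 1 : ℕ) * (2 * (C * ‖x‖)) := by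
      refine (norm_sum_le _ _).trans ?_
      refine (Finset.sum_le_sum fun s _ => hws s).trans ?_
      rw [Finset.sum_const, Finset.card_univ, Fintype.card_fin, nsmul_eq_mul]
    rw [hsumw, norm_smul, Real.norm_eq_abs] at h5
    have h6 : 2 * C * ((r + 1 : ℕ) : ℝ) * ‖x‖ = (r + 1 : ℕ) * (2 * (C * ‖x‖)) := by ring
    rw [h6]
    exact h5

end Run7.h302.RM
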